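import Pool.Agent.H175G.Stmts2

/-! The case `N`, `D₀`, `D₁`. -/

namespace Pool.Agent.H488R2.CW

open Finset Classical
open Pool.Agent.H175G
open Pool.Agent.H175R2 (P4Free)

variable {V : Type} {G : SimpleGraph V}

/-- the combinatorial facts -/
structure Fct (G : SimpleGraph V) (N D0 D1 : Finset V) : Prop where
  hN : Ind G N
  c0 : Clus G D0
  c1 : Clus G D1
  dN0 : ∀ x ∈ N, x ∉ D0
  dN1 : ∀ x ∈ N, x ∉ D1
  d01 : ∀ x ∈ D0, x ∉ D1
  u0 : ∀ d ∈ D0, ∀ n ∈ N, ∀ n' ∈ N, G.Adj n d → G.Adj n' d → n = n'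
  u1 : ∀ d ∈ D1, ∀ n ∈ N, ∀ n' ∈ N, G.Adj n d → G.Adj n' d → n = n'
  p0 : ∀ n ∈ N, ∀ d ∈ D0, ∀ d' ∈ D0, G.Adj n d → G.Adj d d' → G.Adj n d'
  p1 : ∀ n ∈ N, ∀ d ∈ D1, ∀ d' ∈ D1, G.Adj n d → G.Adj d d' → G.Adj n d'
  q0 : ∀ n ∈ N, ∀ d ∈ D0, ∀ d' ∈ D0, G.Adj n d → G.Adj n d' → d ≠ d' → G.Adj d d'
  q1 : ∀ n ∈ N, ∀ d ∈ D1, ∀ d' ∈ D1, G.Adj n d → G.Adj n d' → d ≠ d' → G.Adj d d'
  m0 : ∀ x ∈ D0, ∀ y ∈ D1, ∀ y' ∈ D1, ¬ G.Adj x y → ¬ G.Adj x y' → y = y'
  m1 : ∀ x ∈ D0, ∀ x' ∈ D0, ∀ y ∈ D1, ¬ G.Adj x y → ¬ G.Adj x' y → x = x'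
  l0 : ∀ x ∈ D0, ∀ y ∈ D1, ∀ n ∈ N, ¬ G.Adj x y → G.Adj n x → G.Adj n y
  l1 : ∀ x ∈ D0, ∀ y ∈ D1, ∀ n ∈ N, ¬ G.Adj x y → G.Adj n y → G.Adj n x
  k : ∀ x ∈ D0, ∀ x' ∈ D0, ∀ y ∈ D1, ∀ y' ∈ D1, ¬ G.Adj x' y → G.Adj x x' → G.Adj y y' →
    ¬ G.Adj x y'

lemma fct_of {c0 c1 c2 c3 c4 : V} {N D0 D1 : Finset V} (hg : NoGem G) (hp : NoP23 G)
    (h : NDCfg G c0 c1 c2 c3 c4 N D0 D1 ∅ ∅ ∅) : Fct G N D0 D1 := by
  obtain ⟨hC, hN, h0, h1, -, -, -⟩ := h
  constructor
  · intro x hx y hy h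
    have a := hN x hx
    have b := hN y hy
    gp 1
  · intro x hx y hy z hz hxy hyz hne
    have a := h0 x hx
    have b := h0 y hy
    have c := h0 z hz
    by_contra h
    gp 1
  · intro x hx y hy z hz hxy hyz hne
    have a := h1 x hx
    have b := h1 y hy
    have c := h1 z hz
    by_contra h
    gp 1
  · intro x hx hx'
    have a := hN x hx
    have b := h0 x hx'
    exact a.2.1 b.2.1
  · intro x hx hx'
    have a := hN x hx
    have b := h1 x hx'
    exact a.2.2.1 b.2.1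
  · intro x hx hx'
    have a := h0 x hx
    have b := h1 x hx'
    exact b.1 a.2.1
  · intro d hd n hn n' hn' h h'
    have a := h0 d hd
    have b := hN n hn
    have c := hN n' hn'
    by_contra hne
    gp 2
  · intro d hd n hn n' hn' h h'
    have a := h1 d hd
    have b := hN n hn
    have c := hN n' hn'
    by_contra hne
    gp 2
  · intro n hn d hd d' hd' h h'
    have a := h0 d hd
    have b := h0 d' hd'
    have c := hN n hn
    have hne : n ≠ d' := by rintro rfl; tauto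
    by_contra h''
    gp 1
  · intro n hn d hd d' hd' h h'
    have a := h1 d hd
    have b := h1 d' hd'
    have c := hN n hn
    have hne : n ≠ d' := by rintro rfl; tauto
    by_contra h''
    gp 1
  · intro n hn d hd d' hd' h h' hne
    have a := h0 d hd
    have b := h0 d' hd'
    have c := hN n hn
    by_contra h''
    gp 1
  · intro n hn d hd d' hd' h h' hne
    have a := h1 d hd
    have b := h1 d' hd'
    have c := hN n hn
    by_contra h''
    gp 1
  · intro x hx y hy y' hy' h h'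
    have a := h0 x hx
    have b := h1 y hy
    have c := h1 y' hy'
    by_contra hne
    gp 2
  · intro x hx x' hx' y hy h h'
    have a := h0 x hx
    have b := h0 x' hx'
    have c := h1 y hy
    by_contra hne
    gp 2
  · intro x hx y hy n hn h h'
    have a := h0 x hx
    have b := h1 y hy
    have c := hN n hn
    have hne : n ≠ y := by rintro rfl; tauto
    by_contra h''
    gp 1
  · intro x hx y hy n hn h h'
    have a := h0 x hx
    have b := h1 y hy
    have c := hN n hn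
    have hne : n ≠ x := by rintro rfl; tauto
    by_contra h''
    gp 1
  · intro x hx x' hx' y hy y' hy' h h' h'' h'''
    have a := h0 x hx
    have b := h0 x' hx'
    have c := h1 y hy
    have d := h1 y' hy'
    have hne : x ≠ x' := G.ne_of_adj h'
    have hne' : y ≠ y' := G.ne_of_adj h''
    gp 2


/-- non-isolated in its part -/
def NI (G : SimpleGraph V) (D : Finset V) (x : V) : Prop := ∃ y ∈ D, G.Adj x y

/-- closed neighbourhood in the part -/
noncomputable def comp (G : SimpleGraph V) (D : Finset V) (x : V) : Finset V :=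
  D.filter (fun y => y = x ∨ G.Adj x y)

/-- block of an `N`-free vertex of `D₀` -/
noncomputable def b0 (G : SimpleGraph V) (D0 D1 : Finset V) (x : V) : Finset V :=
  if ∃ y ∈ D1, ¬ G.Adj x y ∧ NI G D1 y then comp G D0 x else {x}

/-- block of an `N`-free vertex of `D₁` -/
noncomputable def b1 (G : SimpleGraph V) (D0 D1 : Finset V) (y : V) : Finset V :=
  if h : ∃ x ∈ D0, ¬ G.Adj x y then (if NI G D1 y then comp G D0 h.choose else {h.choose}) else {y}

/-- block -/
noncomputable def bb (G : SimpleGraph V) (N D0 D1 : Finset V) (v : V) : Finset V :=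
  if v ∈ N then {v} else if (nb G N v).Nonempty then nb G N v else
    if v ∈ D0 then b0 G D0 D1 v else b1 G D0 D1 v

section
variable {N D0 D1 : Finset V} (F : Fct G N D0 D1)
include F

lemma bN {v : V} (h : v ∈ N) : bb G N D0 D1 v = {v} := by simp [bb, h]

lemma bnb {v n : V} (h : v ∈ D0 ∨ v ∈ D1) (hn : n ∈ N) (hnv : G.Adj n v) :
    bb G N D0 D1 v = {n} := by
  have h0 : v ∉ N := by
    intro h'
    rcases h with h | h
    · exact F.dN0 v h' h
    · exact F.dN1 v h' h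
  have h1 : nb G N v = {n} := by
    ext z
    rw [mem_nb, mem_singleton]
    constructor
    · rintro ⟨hz, hz'⟩
      rcases h with h | h
      · exact F.u0 v h z hz n hn hz'.symm hnv
      · exact F.u1 v h z hz n hn hz'.symm hnv
    · rintro rfl; exact ⟨hn, hnv.symm⟩
  rw [bb, if_neg h0, if_pos (by rw [h1]; simp), h1]

lemma bD0 {v : V} (h : v ∈ D0) (hn : ∀ n ∈ N, ¬ G.Adj n v) : bb G N D0 D1 v = b0 G D0 D1 v := by
  have h1 : ¬ (nb G N v).Nonempty := by
    rintro ⟨z, hz⟩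
    rw [mem_nb] at hz
    exact hn z hz.1 hz.2.symm
  rw [bb, if_neg (fun h' => F.dN0 v h' h), if_neg h1, if_pos h]

lemma bD1 {v : V} (h : v ∈ D1) (hn : ∀ n ∈ N, ¬ G.Adj n v) : bb G N D0 D1 v = b1 G D0 D1 v := by
  have h1 : ¬ (nb G N v).Nonempty := by
    rintro ⟨z, hz⟩
    rw [mem_nb] at hz
    exact hn z hz.1 hz.2.symm
  rw [bb, if_neg (fun h' => F.dN1 v h' h), if_neg h1, if_neg (fun h' => F.d01 v h' h)]

/-- the block of a vertex of `D₁` linked to `x` -/
lemma b1_of {x y : V} (hx : x ∈ D0) (hy : y ∈ D1) (h : ¬ G.Adj x y) :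
    b1 G D0 D1 y = if NI G D1 y then comp G D0 x else {x} := by
  have h' : ∃ x ∈ D0, ¬ G.Adj x y := ⟨x, hx, h⟩
  have e : h'.choose = x := F.m1 _ h'.choose_spec.1 _ hx y hy h'.choose_spec.2 h
  rw [b1, dif_pos h', e]

lemma b1_no {y : V} (h : ∀ x ∈ D0, G.Adj x y) : b1 G D0 D1 y = {y} := by
  have h' : ¬ ∃ x ∈ D0, ¬ G.Adj x y := by
    rintro ⟨x, hx, hxy⟩; exact hxy (h x hx)
  rw [b1, dif_neg h']

lemma b0_of {x y : V} (hx : x ∈ D0) (hy : y ∈ D1) (h : ¬ G.Adj x y) :
    b0 G D0 D1 x = if NI G D1 y then comp G D0 x else {x} := by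
  by_cases hi : NI G D1 y
  · rw [b0, if_pos ⟨y, hy, h, hi⟩, if_pos hi]
  · rw [b0, if_neg, if_neg hi]
    rintro ⟨y', hy', h', hi'⟩
    rw [F.m0 x hx y' hy' y hy h' h] at hi'
    exact hi hi'

lemma self_mem_comp {x : V} (hx : x ∈ D0) : x ∈ comp G D0 x := by simp [comp, hx]

lemma self_mem_b0 {x : V} (hx : x ∈ D0) : x ∈ b0 G D0 D1 x := by
  rw [b0]; split_ifs
  · exact self_mem_comp F hx
  · simp

lemma b0_sub {x z : V} (hz : z ∈ b0 G D0 D1 x) : z = x ∨ (G.Adj x z ∧ ∃ y ∈ D1, ¬ G.Adj x y ∧ NI G D1 y) := by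
  rw [b0] at hz; split_ifs at hz with h
  · simp only [comp, mem_filter] at hz
    exact hz.2.imp id (fun h' => ⟨h', h⟩)
  · left; simpa using hz

lemma b0_sub' {x : V} (hx : x ∈ D0) : b0 G D0 D1 x ⊆ D0 := by
  rw [b0]; split_ifs with h
  · exact filter_subset _ _
  · simpa using hx

lemma comp_eq {x x' : V} (hx : x ∈ D0) (hx' : x' ∈ D0) (h : G.Adj x x') :
    comp G D0 x = comp G D0 x' := by
  ext z
  simp only [comp, mem_filter, and_congr_right_iff]
  intro hz
  constructor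
  · rintro (rfl | h1)
    · exact Or.inr h.symm
    · by_cases he : z = x'
      · exact Or.inl he
      · exact Or.inr (F.c0 x' hx' x hx z hz h.symm h1 (Ne.symm he))
  · rintro (rfl | h1)
    · exact Or.inr h
    · by_cases he : z = x
      · exact Or.inl he
      · exact Or.inr (F.c0 x hx x' hx' z hz h h1 (Ne.symm he))

/-- blocks of linked vertices agree -/
lemma b_link {x y : V} (hx : x ∈ D0) (hy : y ∈ D1) (h : ¬ G.Adj x y) :
    bb G N D0 D1 x = bb G N D0 D1 y := by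
  by_cases hn : ∃ n ∈ N, G.Adj n x
  · obtain ⟨n, hn, hnx⟩ := hn
    rw [bnb F (Or.inl hx) hn hnx, bnb F (Or.inr hy) hn (F.l0 x hx y hy n hn h hnx)]
  · push Not at hn
    have hn' : ∀ n ∈ N, ¬ G.Adj n y := fun n hn1 h' => hn n hn1 (F.l1 x hx y hy n hn1 h h')
    rw [bD0 F hx hn, bD1 F hy hn', b1_of F hx hy h, b0_of F hx hy h]

/-- adjacent vertices of `D₀`, one of them in a nontrivial block -/
lemma b_adj0 {x x' : V} (hx : x ∈ D0) (hx' : x' ∈ D0) (h : G.Adj x x')
    (hW : (∃ n ∈ N, G.Adj n x) ∨ ∃ y ∈ D1, ¬ G.Adj x y ∧ NI G D1 y) :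
    bb G N D0 D1 x = bb G N D0 D1 x' := by
  by_cases hn : ∃ n ∈ N, G.Adj n x
  · obtain ⟨n, hn, hnx⟩ := hn
    rw [bnb F (Or.inl hx) hn hnx, bnb F (Or.inl hx') hn (F.p0 n hn x hx x' hx' hnx h)]
  · obtain ⟨y, hy, hxy, y', hy', hyy⟩ := hW.resolve_left hn
    push Not at hn
    have hn' : ∀ n ∈ N, ¬ G.Adj n x' := fun n hn1 h' => hn n hn1 (F.p0 n hn1 x' hx' x hx h' h.symm)
    have h2 : ¬ G.Adj x' y' := F.k x' hx' x hx y hy y' hy' hxy h.symm hyy
    rw [bD0 F hx hn, bD0 F hx' hn', b0_of F hx hy hxy, b0_of F hx' hy' h2, if_pos ⟨y', hy', hyy⟩,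
      if_pos ⟨y, hy, hyy.symm⟩, comp_eq F hx hx' h]

/-- adjacent vertices of `D₁`, one of them in a nontrivial block -/
lemma b_adj1 {y y' : V} (hy : y ∈ D1) (hy' : y' ∈ D1) (h : G.Adj y y')
    (hW : (∃ n ∈ N, G.Adj n y) ∨ ∃ x ∈ D0, ¬ G.Adj x y ∧ NI G D0 x) :
    bb G N D0 D1 y = bb G N D0 D1 y' := by
  by_cases hn : ∃ n ∈ N, G.Adj n y
  · obtain ⟨n, hn, hnx⟩ := hn
    rw [bnb F (Or.inr hy) hn hnx, bnb F (Or.inr hy') hn (F.p1 n hn y hy y' hy' hnx h)]
  · obtain ⟨x, hx, hxy, x', hx', hxx⟩ := hW.resolve_left hn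
    push Not at hn
    have hn' : ∀ n ∈ N, ¬ G.Adj n y' := fun n hn1 h' => hn n hn1 (F.p1 n hn1 y' hy' y hy h' h.symm)
    have h2 : ¬ G.Adj x' y' := F.k x' hx' x hx y hy y' hy' hxy hxx.symm h
    rw [bD1 F hy hn, bD1 F hy' hn', b1_of F hx hy hxy, b1_of F hx' hy' h2, if_pos ⟨y', hy', h⟩,
      if_pos ⟨y, hy, h.symm⟩, comp_eq F hx hx' hxx]

lemma bb_sub0 {x : V} (hx : x ∈ D0) (hn : ∀ n ∈ N, ¬ G.Adj n x) : bb G N D0 D1 x ⊆ D0 := by
  rw [bD0 F hx hn]; exact b0_sub' F hx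

/-- in a block: `D₀` -/
lemma same0 {x x' : V} (hx : x ∈ D0) (hx' : x' ∈ D0) (h : bb G N D0 D1 x = bb G N D0 D1 x')
    (hne : x ≠ x') : G.Adj x x' ∧ ((∃ n ∈ N, G.Adj n x) ∨ ∃ y ∈ D1, ¬ G.Adj x y ∧ NI G D1 y) := by
  by_cases hn : ∃ n ∈ N, G.Adj n x
  · obtain ⟨n, hn, hnx⟩ := hn
    by_cases hn' : ∃ n ∈ N, G.Adj n x'
    · obtain ⟨n', hn', hnx'⟩ := hn'
      rw [bnb F (Or.inl hx) hn hnx, bnb F (Or.inl hx') hn' hnx', singleton_inj] at h
      subst h
      exact ⟨F.q0 n hn x hx x' hx' hnx hnx' hne, Or.inl ⟨n, hn, hnx⟩⟩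
    · push Not at hn'
      have h1 := bb_sub0 F hx' hn'
      rw [← h, bnb F (Or.inl hx) hn hnx] at h1
      exact absurd (h1 (mem_singleton_self n)) (F.dN0 n hn)
  · push Not at hn
    by_cases hn' : ∃ n ∈ N, G.Adj n x'
    · obtain ⟨n, hn1, hnx⟩ := hn'
      have h1 := bb_sub0 F hx hn
      rw [h, bnb F (Or.inl hx') hn1 hnx] at h1
      exact absurd (h1 (mem_singleton_self n)) (F.dN0 n hn1)
    · push Not at hn'
      rw [bD0 F hx hn, bD0 F hx' hn'] at h
      have h1 := self_mem_b0 F hx'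
      rw [← h] at h1
      rcases b0_sub F h1 with h2 | h2
      · exact absurd h2.symm hne
      · exact ⟨h2.1, Or.inr h2.2⟩

/-- in a block: `D₁` -/
lemma same1 {y y' : V} (hy : y ∈ D1) (hy' : y' ∈ D1) (h : bb G N D0 D1 y = bb G N D0 D1 y')
    (hne : y ≠ y') : G.Adj y y' ∧ ((∃ n ∈ N, G.Adj n y) ∨ ∃ x ∈ D0, ¬ G.Adj x y ∧ NI G D0 x) := by
  have key : ∀ y ∈ D1, (∀ n ∈ N, ¬ G.Adj n y) → ∀ n ∈ N, bb G N D0 D1 y ≠ {n} := by
    intro y hy hn n hn1 he
    rw [bD1 F hy hn] at he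
    by_cases hl : ∃ x ∈ D0, ¬ G.Adj x y
    · obtain ⟨x, hx, hxy⟩ := hl
      rw [b1_of F hx hy hxy] at he
      have h1 : x ∈ ({n} : Finset V) := by
        rw [← he]; split_ifs
        · exact self_mem_comp F hx
        · simp
      rw [mem_singleton] at h1
      exact F.dN0 n hn1 (h1 ▸ hx)
    · push Not at hl
      rw [b1_no F hl, singleton_inj] at he
      exact F.dN1 n hn1 (he ▸ hy)
  by_cases hn : ∃ n ∈ N, G.Adj n y
  · obtain ⟨n, hn, hnx⟩ := hn
    by_cases hn' : ∃ n ∈ N, G.Adj n y'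
    · obtain ⟨n', hn', hnx'⟩ := hn'
      rw [bnb F (Or.inr hy) hn hnx, bnb F (Or.inr hy') hn' hnx', singleton_inj] at h
      subst h
      exact ⟨F.q1 n hn y hy y' hy' hnx hnx' hne, Or.inl ⟨n, hn, hnx⟩⟩
    · push Not at hn'
      rw [bnb F (Or.inr hy) hn hnx] at h
      exact absurd h.symm (key y' hy' hn' n hn)
  · push Not at hn
    by_cases hn' : ∃ n ∈ N, G.Adj n y'
    · obtain ⟨n, hn1, hnx⟩ := hn'
      rw [bnb F (Or.inr hy') hn1 hnx] at h
      exact absurd h (key y hy hn n hn1)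
    · push Not at hn'
      rw [bD1 F hy hn, bD1 F hy' hn'] at h
      by_cases hl : ∃ x ∈ D0, ¬ G.Adj x y
      · obtain ⟨x, hx, hxy⟩ := hl
        by_cases hl' : ∃ x ∈ D0, ¬ G.Adj x y'
        · obtain ⟨x', hx', hxy'⟩ := hl'
          have hxx : x ≠ x' := by
            rintro rfl; exact hne (F.m0 x hx y hy y' hy' hxy hxy')
          rw [b1_of F hx hy hxy, b1_of F hx' hy' hxy'] at h
          have h1 : x ∈ (if NI G D1 y' then comp G D0 x' else {x'}) := by
            rw [← h]; split_ifs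
            · exact self_mem_comp F hx
            · simp
          split_ifs at h1 with h2
          · simp only [comp, mem_filter] at h1
            have h3 : G.Adj x' x := h1.2.resolve_left hxx
            obtain ⟨z, hz, hyz⟩ := h2
            have h4 : ¬ G.Adj x z := F.k x hx x' hx' y' hy' z hz hxy' h3.symm hyz
            have h5 : y = z := F.m0 x hx y hy z hz hxy h4
            subst h5
            exact ⟨hyz.symm, Or.inr ⟨x, hx, hxy, x', hx', h3.symm⟩⟩
          · rw [mem_singleton] at h1; exact absurd h1 hxx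
        · push Not at hl'
          exfalso
          rw [b1_of F hx hy hxy, b1_no F hl'] at h
          have h1 : x ∈ ({y'} : Finset V) := by
            rw [← h]; split_ifs
            · exact self_mem_comp F hx
            · simp
          rw [mem_singleton] at h1
          exact F.d01 x hx (h1 ▸ hy')
      · push Not at hl
        exfalso
        rw [b1_no F hl] at h
        by_cases hl' : ∃ x ∈ D0, ¬ G.Adj x y'
        · obtain ⟨x', hx', hxy'⟩ := hl'
          rw [b1_of F hx' hy' hxy'] at h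
          have h1 : x' ∈ ({y} : Finset V) := by
            rw [h]; split_ifs
            · exact self_mem_comp F hx'
            · simp
          rw [mem_singleton] at h1
          exact F.d01 x' hx' (h1 ▸ hy)
        · push Not at hl'
          rw [b1_no F hl', singleton_inj] at h
          exact hne h

/-- in a block: `N` and `D₀ ∪ D₁` -/
lemma sameN {n d : V} (hn : n ∈ N) (hd : d ∈ D0 ∨ d ∈ D1) (h : bb G N D0 D1 n = bb G N D0 D1 d) :
    G.Adj n d := by
  rw [bN F hn] at h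
  by_cases hn' : ∃ n ∈ N, G.Adj n d
  · obtain ⟨n', hn', hnx'⟩ := hn'
    rw [bnb F hd hn' hnx', singleton_inj] at h
    rw [h]; exact hnx'
  · exfalso
    push Not at hn'
    rcases hd with hd | hd
    · have := bb_sub0 F hd hn'
      rw [← h] at this
      exact F.dN0 n hn (this (mem_singleton_self n))
    · rw [bD1 F hd hn'] at h
      by_cases hl : ∃ x ∈ D0, ¬ G.Adj x d
      · obtain ⟨x, hx, hxy⟩ := hl
        rw [b1_of F hx hd hxy] at h
        have h1 : x ∈ ({n} : Finset V) := by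
          rw [h]; split_ifs
          · exact self_mem_comp F hx
          · simp
        rw [mem_singleton] at h1
        exact F.dN0 n hn (h1 ▸ hx)
      · push Not at hl
        rw [b1_no F hl, singleton_inj] at h
        exact F.dN1 n hn (h ▸ hd)

end

/-- label -/
noncomputable def lb (N D0 : Finset V) (v : V) : Fin 3 := if v ∈ N then 0 else if v ∈ D0 then 1 else 2

/-- adjacency of labels -/
def FF (a b : Fin 3) : Prop := (a = 1 ∧ b = 2) ∨ (a = 2 ∧ b = 1)

noncomputable def W0 (G : SimpleGraph V) (N D0 D1 : Finset V) : Finset V :=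
  D0.filter (fun x => (∃ n ∈ N, G.Adj n x) ∨ ∃ y ∈ D1, ¬ G.Adj x y ∧ NI G D1 y)

noncomputable def W1 (G : SimpleGraph V) (N D0 D1 : Finset V) : Finset V :=
  D1.filter (fun y => (∃ n ∈ N, G.Adj n y) ∨ ∃ x ∈ D0, ¬ G.Adj x y ∧ (¬ NI G D1 y ∨ NI G D0 x))

noncomputable def VV (G : SimpleGraph V) (N D0 D1 : Finset V) : Finset V :=
  N ∪ (D0 \ W0 G N D0 D1) ∪ (D1 \ W1 G N D0 D1)

lemma mem_VV {N D0 D1 : Finset V} {x : V} : x ∈ VV G N D0 D1 ↔
    x ∈ N ∨ (x ∈ D0 ∧ (∀ n ∈ N, ¬ G.Adj n x) ∧ ∀ y ∈ D1, ¬ G.Adj x y → ¬ NI G D1 y) ∨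
    (x ∈ D1 ∧ (∀ n ∈ N, ¬ G.Adj n x) ∧ ∀ y ∈ D0, ¬ G.Adj y x → (NI G D1 x ∧ ¬ NI G D0 y)) := by
  simp only [VV, W0, W1, mem_union, mem_sdiff, mem_filter]
  constructor
  · rintro ((h | ⟨h1, h2⟩) | ⟨h1, h2⟩)
    · exact Or.inl h
    · refine Or.inr (Or.inl ⟨h1, fun n hn h => h2 ⟨h1, Or.inl ⟨n, hn, h⟩⟩, fun y hy h h' =>
        h2 ⟨h1, Or.inr ⟨y, hy, h, h'⟩⟩⟩)
    · refine Or.inr (Or.inr ⟨h1, fun n hn h => h2 ⟨h1, Or.inl ⟨n, hn, h⟩⟩, fun y hy h => ?_⟩)
      by_contra hc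
      exact h2 ⟨h1, Or.inr ⟨y, hy, h, by tauto⟩⟩
  · rintro (h | ⟨h1, h2, h3⟩ | ⟨h1, h2, h3⟩)
    · exact Or.inl (Or.inl h)
    · refine Or.inl (Or.inr ⟨h1, ?_⟩)
      rintro ⟨-, (⟨n, hn, h⟩ | ⟨y, hy, h, h'⟩)⟩
      · exact h2 n hn h
      · exact h3 y hy h h'
    · refine Or.inr ⟨h1, ?_⟩
      rintro ⟨-, (⟨n, hn, h⟩ | ⟨y, hy, h, h'⟩)⟩
      · exact h2 n hn h
      · have := h3 y hy h
        tauto

theorem comb (B : ℕ → ℕ → ℕ → ℕ)
    (hB : ∀ (V : Type) (G : SimpleGraph V) (Λ β : Type) [Fintype Λ] (K K' : ℕ)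
    (V0 W : Finset V) (lab : V → Λ) (F : Λ → Λ → Prop) (b : V → β),
    BD G K V0 → (∀ x ∈ V0, ∀ y ∈ V0, b x = b y → x = y) →
    (∀ x ∈ V0 ∪ W, BD G K' ((V0 ∪ W).filter (fun y => b y = b x))) →
    (∀ x ∈ W, ∀ y ∈ V0 ∪ W, b x ≠ b y → (G.Adj x y ↔ F (lab x) (lab y))) →
    BD G (B K K' (Fintype.card Λ)) (V0 ∪ W))
    {N D0 D1 : Finset V} (F : Fct G N D0 D1) : BD G (B 1 1 3) (N ∪ D0 ∪ D1) := by
  have hW0 : W0 G N D0 D1 ⊆ D0 := filter_subset _ _
  have hW1 : W1 G N D0 D1 ⊆ D1 := filter_subset _ _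
  have hU : VV G N D0 D1 ∪ (W0 G N D0 D1 ∪ W1 G N D0 D1) = N ∪ D0 ∪ D1 := by
    ext z
    have a := @hW0 z
    have b := @hW1 z
    simp only [VV, mem_union, mem_sdiff]
    tauto
  have lN : ∀ x ∈ N, lb N D0 x = 0 := fun x hx => by simp [lb, hx]
  have l0 : ∀ x ∈ D0, lb N D0 x = 1 := fun x hx => by
    have : x ∉ N := fun h => F.dN0 x h hx
    simp [lb, hx, this]
  have l1 : ∀ x ∈ D1, lb N D0 x = 2 := fun x hx => by
    have h1 : x ∉ N := fun h => F.dN1 x h hx
    have h2 : x ∉ D0 := fun h => F.d01 x h hx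
    simp [lb, h1, h2]
  -- the base
  have h1 : BD G 1 (VV G N D0 D1) := by
    apply BD.cograph
    have nn : ∀ n ∈ N, ∀ u ∈ VV G N D0 D1, ¬ G.Adj n u := by
      intro n hn u hu
      rw [mem_VV] at hu
      rcases hu with h | h | h
      · exact F.hN n hn u h
      · exact h.2.1 n hn
      · exact h.2.1 n hn
    have cc : ∀ x ∈ VV G N D0 D1, x ∈ D0 → ∀ y ∈ VV G N D0 D1, y ∈ D1 → G.Adj x y := by
      intro x hx hx' y hy hy'
      rw [mem_VV] at hx hy
      have hxN : x ∉ N := fun h => F.dN0 x h hx'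
      have hx1 : x ∉ D1 := fun h => F.d01 x hx' h
      have hyN : y ∉ N := fun h => F.dN1 y h hy'
      have hy1 : y ∉ D0 := fun h => F.d01 y h hy'
      by_contra hxy
      rcases hx with h | h | h
      · exact hxN h
      · rcases hy with h' | h' | h'
        · exact hyN h'
        · exact hy1 h'.1
        · exact h.2.2 y hy' hxy (h'.2.2 x hx' hxy).1
      · exact hx1 h.1
    have ty : ∀ u ∈ VV G N D0 D1, ∀ w ∈ VV G N D0 D1, G.Adj u w → u ∈ D0 ∨ u ∈ D1 := by
      intro u hu w hw h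
      have hu' := hu
      rw [mem_VV] at hu
      rcases hu with h' | h' | h'
      · exact absurd h (nn u h' w hw)
      · exact Or.inl h'.1
      · exact Or.inr h'.1
    intro a ha b hb c hc d hd hac had hbd hab hbc hcd
    by_contra hcon
    push Not at hcon
    obtain ⟨nac, nad, nbd⟩ := hcon
    have ta := ty a ha b hb hab
    have tb := ty b hb a ha hab.symm
    have tc := ty c hc b hb hbc.symm
    have td := ty d hd c hc hcd.symm
    rcases ta with ta | ta
    · have tc' : c ∈ D0 := tc.resolve_right fun h => nac (cc a ha ta c hc h)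
      have td' : d ∈ D0 := td.resolve_right fun h => nad (cc a ha ta d hd h)
      rcases tb with tb | tb
      · exact nac (F.c0 a ta b tb c tc' hab hbc hac)
      · exact nbd (cc d hd td' b hb tb).symm
    · have tc' : c ∈ D1 := tc.resolve_left fun h => nac (cc c hc h a ha ta).symm
      have td' : d ∈ D1 := td.resolve_left fun h => nad (cc d hd h a ha ta).symm
      rcases tb with tb | tb
      · exact nbd (cc b hb tb d hd td')
      · exact nac (F.c1 a ta b tb c tc' hab hbc hac)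
  -- anchors
  have h2 : ∀ x ∈ VV G N D0 D1, ∀ y ∈ VV G N D0 D1, bb G N D0 D1 x = bb G N D0 D1 y → x = y := by
    have c01 : ∀ x ∈ D0, (∀ n ∈ N, ¬ G.Adj n x) → (∀ y ∈ D1, ¬ G.Adj x y → ¬ NI G D1 y) →
        ∀ y ∈ D1, (∀ n ∈ N, ¬ G.Adj n y) → (∀ z ∈ D0, ¬ G.Adj z y → (NI G D1 y ∧ ¬ NI G D0 z)) →
        bb G N D0 D1 x ≠ bb G N D0 D1 y := by
      intro x hx hn hl y hy hn' hl' he
      rw [bD0 F hx hn, bD1 F hy hn', b0, if_neg] at he
      · by_cases hz : ∃ z ∈ D0, ¬ G.Adj z y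
        · obtain ⟨z, hz, hzy⟩ := hz
          rw [b1_of F hz hy hzy] at he
          have h3 : z ∈ ({x} : Finset V) := by
            rw [he]; split_ifs
            · exact self_mem_comp F hz
            · simp
          rw [mem_singleton] at h3
          subst h3
          exact hl y hy hzy (hl' z hz hzy).1
        · push Not at hz
          rw [b1_no F hz, singleton_inj] at he
          exact F.d01 x hx (he ▸ hy)
      · rintro ⟨z, hz, h3, h4⟩
        exact hl z hz h3 h4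
    intro x hx y hy he
    rw [mem_VV] at hx hy
    rcases hx with hx | hx | hx
    · rcases hy with hy | hy | hy
      · rw [bN F hx, bN F hy, singleton_inj] at he; exact he
      · exact absurd (sameN F hx (Or.inl hy.1) he) (hy.2.1 x hx)
      · exact absurd (sameN F hx (Or.inr hy.1) he) (hy.2.1 x hx)
    · rcases hy with hy | hy | hy
      · exact absurd (sameN F hy (Or.inl hx.1) he.symm) (hx.2.1 y hy)
      · by_contra hne
        rcases (same0 F hx.1 hy.1 he hne).2 with ⟨n, hn, h⟩ | ⟨z, hz, h, h'⟩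
        · exact hx.2.1 n hn h
        · exact hx.2.2 z hz h h'
      · exact absurd he (c01 x hx.1 hx.2.1 hx.2.2 y hy.1 hy.2.1 hy.2.2)
    · rcases hy with hy | hy | hy
      · exact absurd (sameN F hy (Or.inr hx.1) he.symm) (hx.2.1 y hy)
      · exact absurd he.symm (c01 y hy.1 hy.2.1 hy.2.2 x hx.1 hx.2.1 hx.2.2)
      · by_contra hne
        rcases (same1 F hx.1 hy.1 he hne).2 with ⟨n, hn, h⟩ | ⟨z, hz, h, h'⟩
        · exact hx.2.1 n hn h
        · exact (hx.2.2 z hz h).2 h'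
  -- blocks
  have h3 : ∀ x ∈ N ∪ D0 ∪ D1, BD G 1 ((N ∪ D0 ∪ D1).filter
      (fun y => bb G N D0 D1 y = bb G N D0 D1 x)) := by
    intro x _
    apply BD.cograph
    have key : ∀ u ∈ (N ∪ D0 ∪ D1).filter (fun y => bb G N D0 D1 y = bb G N D0 D1 x),
        ∀ v ∈ (N ∪ D0 ∪ D1).filter (fun y => bb G N D0 D1 y = bb G N D0 D1 x), u ≠ v →
        ¬ G.Adj u v → (u ∈ D0 ∧ v ∈ D1) ∨ (v ∈ D0 ∧ u ∈ D1) := by
      intro u hu v hv hne hnuv
      simp only [mem_filter, mem_union] at hu hv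
      have he := hu.2.trans hv.2.symm
      rcases hu.1 with (h | h) | h
      · rcases hv.1 with (h' | h') | h'
        · rw [bN F h, bN F h', singleton_inj] at he
          exact absurd he hne
        · exact absurd (sameN F h (Or.inl h') he) hnuv
        · exact absurd (sameN F h (Or.inr h') he) hnuv
      · rcases hv.1 with (h' | h') | h'
        · exact absurd (sameN F h' (Or.inl h) he.symm).symm hnuv
        · exact absurd (same0 F h h' he hne).1 hnuv
        · exact Or.inl ⟨h, h'⟩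
      · rcases hv.1 with (h' | h') | h'
        · exact absurd (sameN F h' (Or.inr h) he.symm).symm hnuv
        · exact Or.inr ⟨h', h⟩
        · exact absurd (same1 F h h' he hne).1 hnuv
    intro a ha b hb c hc d hd hac had hbd hab hbc hcd
    by_contra hcon
    push Not at hcon
    obtain ⟨nac, nad, nbd⟩ := hcon
    have k1 := key a ha c hc hac nac
    have k2 := key a ha d hd had nad
    have hcd' := G.ne_of_adj hcd
    rcases k1 with ⟨k1, k1'⟩ | ⟨k1, k1'⟩
    · rcases k2 with ⟨k2, k2'⟩ | ⟨k2, k2'⟩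
      · exact hcd' (F.m0 a k1 c k1' d k2' nac nad)
      · exact F.d01 a k1 k2'
    · rcases k2 with ⟨k2, k2'⟩ | ⟨k2, k2'⟩
      · exact F.d01 a k2 k1'
      · exact hcd' (F.m1 c k1 d k2 a k1' (fun h => nac h.symm) (fun h => nad h.symm))
  -- labels
  have h4 : ∀ x ∈ W0 G N D0 D1 ∪ W1 G N D0 D1, ∀ y ∈ N ∪ D0 ∪ D1,
      bb G N D0 D1 x ≠ bb G N D0 D1 y → (G.Adj x y ↔ FF (lb N D0 x) (lb N D0 y)) := by
    intro x hx y hy hne
    simp only [mem_union] at hx hy
    rcases hx with hx | hx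
    · have hx0 := hW0 hx
      simp only [W0, mem_filter] at hx
      rcases hy with (hy | hy) | hy
      · rw [l0 x hx0, lN y hy]
        constructor
        · intro h
          exact absurd ((bnb F (Or.inl hx0) hy h.symm).trans (bN F hy).symm) hne
        · intro h; simp [FF] at h
      · rw [l0 x hx0, l0 y hy]
        constructor
        · intro h
          exact absurd (b_adj0 F hx0 hy h hx.2) hne
        · intro h; simp [FF] at h
      · rw [l0 x hx0, l1 y hy]
        constructor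
        · intro _; simp [FF]
        · intro _; by_contra h; exact hne (b_link F hx0 hy h)
    · have hx0 := hW1 hx
      simp only [W1, mem_filter] at hx
      rcases hy with (hy | hy) | hy
      · rw [l1 x hx0, lN y hy]
        constructor
        · intro h
          exact absurd ((bnb F (Or.inr hx0) hy h.symm).trans (bN F hy).symm) hne
        · intro h; simp [FF] at h
      · rw [l1 x hx0, l0 y hy]
        constructor
        · intro _; simp [FF]
        · intro _; by_contra h; exact hne (b_link F hy hx0 (fun h' => h h'.symm)).symm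
      · rw [l1 x hx0, l1 y hy]
        constructor
        · intro h
          refine absurd (b_adj1 F hx0 hy h ?_) hne
          rcases hx.2 with h' | ⟨z, hz, h5, h6⟩
          · exact Or.inl h'
          · exact Or.inr ⟨z, hz, h5, h6.resolve_left (fun h7 => h7 ⟨y, hy, h⟩)⟩
        · intro h; simp [FF] at h
  have := hB V G (Fin 3) (Finset V) 1 1 (VV G N D0 D1) (W0 G N D0 D1 ∪ W1 G N D0 D1) (lb N D0) FF
    (bb G N D0 D1) h1 h2 (by rw [hU]; intro x hx; convert h3 x hx) (by rw [hU]; exact h4)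
  rw [Fintype.card_fin, hU] at this
  exact this

theorem nd01_stmt (hA : AttachStmt) : ND01Stmt := by
  obtain ⟨B, hB⟩ := hA
  refine ⟨B 1 1 3, ?_⟩
  intro V G hg hp c0 c1 c2 c3 c4 N D0 D1 h
  exact comb B hB (fct_of hg hp h)

end Pool.Agent.H488R2.CW
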